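import Mathlib

/-!
# Ramsey for subspaces (project HL, item (6) of note 2702)

For every `N` and every function `c` there is `B` such that: if finitely many subspaces of dimension
`≤ N` of a vector space over a division ring have a sum of dimension `> B`, then there are a nonempty
subfamily with sum `Z`, of dimension `ρ`, and at least `c ρ` members of the family which are
independent over `Z` and not contained in `Z`.
-/

set_option autoImplicit false

namespace Pool.Agent.Helper79.HL

open Module

universe u v w

/-- The subspaces `W i`, `i ∈ S`, are independent over `Z`. -/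
def IndepOver {D : Type u} {V : Type v} {ι : Type w} [DivisionRing D] [AddCommGroup V] [Module D V]
    (Z : Submodule D V) (W : ι → Submodule D V) (S : Finset ι) : Prop :=
  ∀ x : ι → V, (∀ i ∈ S, x i ∈ W i ⊔ Z) → ∑ i ∈ S, x i ∈ Z → ∀ i ∈ S, x i ∈ Z

theorem IndepOver.empty {D : Type u} {V : Type v} {ι : Type w} [DivisionRing D] [AddCommGroup V]
    [Module D V] (Z : Submodule D V) (W : ι → Submodule D V) : IndepOver Z W ∅ := by
  intro x _ _ i hi
  simp at hi

theorem ramsey_aux (c : ℕ → ℕ) (N : ℕ) : ∀ k R : ℕ, ∃ B : ℕ,
    ∀ (D : Type u) (V : Type v) (ι : Type w) [DivisionRing D] [AddCommGroup V] [Module D V]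
      [DecidableEq ι] (W : ι → Submodule D V) (s : Finset ι)
      (_ : ∀ i, FiniteDimensional D (W i)) (_ : ∀ i ∈ s, finrank D (W i) ≤ N)
      (J : Finset ι) (_ : J ⊆ s) (_ : J.Nonempty) (_ : finrank D ↥(J.sup W) ≤ R)
      (_ : ∀ i ∈ s, finrank D (W i) ≤ k + finrank D ↥(W i ⊓ J.sup W))
      (_ : B < finrank D ↥(s.sup W)),
      ∃ J' : Finset ι, J' ⊆ s ∧ J'.Nonempty ∧ ∃ S : Finset ι, S ⊆ s ∧
        c (finrank D ↥(J'.sup W)) ≤ S.card ∧ IndepOver (J'.sup W) W S ∧
        ∀ i ∈ S, ¬ W i ≤ J'.sup W := by
  intro k
  induction k with
  | zero =>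
    intro R
    refine ⟨R, ?_⟩
    intro D V ι _ _ _ _ W s hfd hN J hJ hJn hR hk hB
    exfalso
    have h1 : s.sup W ≤ J.sup W := by
      refine Finset.sup_le ?_
      intro i hi
      have h2 : finrank D (W i) ≤ finrank D ↥(W i ⊓ J.sup W) := by simpa using hk i hi
      have h3 : W i ⊓ J.sup W = W i := Submodule.eq_of_le_of_finrank_le inf_le_left h2
      exact inf_eq_left.1 h3
    have h4 : finrank D ↥(s.sup W) ≤ finrank D ↥(J.sup W) := Submodule.finrank_mono h1
    omega
  | succ k ih =>
    intro R
    obtain ⟨B, hB0⟩ := ih (R + ((Finset.range (R + 1)).sup c) * N)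
    refine ⟨B, ?_⟩
    intro D V ι _ _ _ _ W s hfd hN J hJ hJn hR hk hB
    classical
    -- a maximal independent family
    let P : Finset ι → Prop := fun S => S ⊆ s ∧ IndepOver (J.sup W) W S ∧ ∀ i ∈ S, ¬ W i ≤ J.sup W
    have hP0 : P ∅ := ⟨Finset.empty_subset _, IndepOver.empty _ _, by simp⟩
    obtain ⟨S, hS, hSmax⟩ : ∃ S : Finset ι, P S ∧ ∀ T : Finset ι, P T → T.card ≤ S.card := by
      have hne : (s.powerset.filter P).Nonempty :=
        ⟨∅, by simp [hP0]⟩
      obtain ⟨S, hS, hmax⟩ := Finset.exists_max_image _ Finset.card hne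
      refine ⟨S, (Finset.mem_filter.1 hS).2, fun T hT => hmax T ?_⟩
      exact Finset.mem_filter.2 ⟨Finset.mem_powerset.2 hT.1, hT⟩
    by_cases hc : c (finrank D ↥(J.sup W)) ≤ S.card
    · exact ⟨J, hJ, hJn, S, hS.1, hc, hS.2.1, hS.2.2⟩
    · have hcard : S.card ≤ (Finset.range (R + 1)).sup c := by
        have h1 : c (finrank D ↥(J.sup W)) ≤ (Finset.range (R + 1)).sup c :=
          Finset.le_sup (f := c) (Finset.mem_range.2 (by omega))
        omega
      have hJS : J.sup W ≤ (J ∪ S).sup W := Finset.sup_mono Finset.subset_union_left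
      have hSS : ∀ i ∈ S, W i ≤ (J ∪ S).sup W := fun i hi =>
        Finset.le_sup (f := W) (Finset.mem_union_right _ hi)
      refine hB0 D V ι W s hfd hN (J ∪ S) (Finset.union_subset hJ hS.1)
        (hJn.mono Finset.subset_union_left) ?_ ?_ hB
      · rw [Finset.sup_union]
        have h1 : finrank D ↥(J.sup W ⊔ S.sup W) ≤ finrank D ↥(J.sup W) + finrank D ↥(S.sup W) :=
          Submodule.finrank_add_le_finrank_add_finrank _ _
        have h2 : finrank D ↥(S.sup W) ≤ S.card * N := by
          have h3 : ∀ T : Finset ι, T ⊆ s → finrank D ↥(T.sup W) ≤ T.card * N := by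
            intro T
            induction T using Finset.induction_on with
            | empty => intro _; simp
            | insert a T ha iht =>
              intro hT
              rw [Finset.sup_insert, Finset.card_insert_of_notMem ha]
              have h4 : finrank D ↥(W a ⊔ T.sup W) ≤ finrank D (W a) + finrank D ↥(T.sup W) :=
                Submodule.finrank_add_le_finrank_add_finrank _ _
              have h5 := iht (fun i hi => hT (Finset.mem_insert_of_mem hi))
              have h6 := hN a (hT (Finset.mem_insert_self _ _))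
              have h7 : (T.card + 1) * N = T.card * N + N := by ring
              omega
          exact h3 S hS.1
        have h3 : S.card * N ≤ ((Finset.range (R + 1)).sup c) * N := Nat.mul_le_mul_right _ hcard
        omega
      · intro i hi
        by_cases hiZ : W i ≤ (J ∪ S).sup W
        · rw [inf_eq_left.2 hiZ]
          omega
        · have hiS : i ∉ S := fun h => hiZ (hSS i h)
          have hiJ : ¬ W i ≤ J.sup W := fun h => hiZ (h.trans hJS)
          have hnot : ¬ IndepOver (J.sup W) W (insert i S) := by
            intro hind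
            have h1 : P (insert i S) := by
              refine ⟨Finset.insert_subset hi hS.1, hind, ?_⟩
              intro j hj
              rcases Finset.mem_insert.1 hj with rfl | hj
              · exact hiJ
              · exact hS.2.2 j hj
            have h2 := hSmax _ h1
            rw [Finset.card_insert_of_notMem hiS] at h2
            omega
          unfold IndepOver at hnot
          push Not at hnot
          obtain ⟨x, hx, hsum, j, hj, hjx⟩ := hnot
          rw [Finset.sum_insert hiS] at hsum
          have hxi : x i ∉ J.sup W := by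
            intro hxi
            have h1 : ∑ j ∈ S, x j ∈ J.sup W := by
              have := Submodule.sub_mem _ hsum hxi
              simpa using this
            have h2 := hS.2.1 x (fun j hj => hx j (Finset.mem_insert_of_mem hj)) h1
            rcases Finset.mem_insert.1 hj with rfl | hj
            · exact hjx hxi
            · exact hjx (h2 j hj)
          have hxZ : x i ∈ (J ∪ S).sup W := by
            have h1 : ∑ j ∈ S, x j ∈ (J ∪ S).sup W := by
              refine Submodule.sum_mem _ fun j hj => ?_
              have h2 := hx j (Finset.mem_insert_of_mem hj)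
              exact (sup_le (hSS j hj) hJS) h2
            have := Submodule.sub_mem _ (hJS hsum) h1
            simpa using this
          obtain ⟨y, hy, z, hz, hyz⟩ := Submodule.mem_sup.1 (hx i (Finset.mem_insert_self _ _))
          have hyZ : y ∈ (J ∪ S).sup W := by
            have : y = x i - z := by rw [← hyz]; simp
            rw [this]
            exact Submodule.sub_mem _ hxZ (hJS hz)
          have hyn : y ∉ J.sup W := by
            intro h
            exact hxi (by rw [← hyz]; exact Submodule.add_mem _ h hz)
          have hlt : W i ⊓ J.sup W < W i ⊓ (J ∪ S).sup W := by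
            refine lt_of_le_of_ne (inf_le_inf_left _ hJS) ?_
            intro heq
            have : y ∈ W i ⊓ J.sup W := by
              rw [heq]
              exact ⟨hy, hyZ⟩
            exact hyn this.2
          have h1 := Submodule.finrank_lt_finrank_of_lt hlt
          have h2 := hk i hi
          omega

/-- Ramsey for subspaces. -/
theorem ramsey (c : ℕ → ℕ) (N : ℕ) : ∃ B : ℕ,
    ∀ (D : Type u) (V : Type v) (ι : Type w) [DivisionRing D] [AddCommGroup V] [Module D V]
      (W : ι → Submodule D V) (s : Finset ι)
      (_ : ∀ i, FiniteDimensional D (W i)) (_ : ∀ i ∈ s, finrank D (W i) ≤ N)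
      (_ : B < finrank D ↥(s.sup W)),
      ∃ J : Finset ι, J ⊆ s ∧ J.Nonempty ∧ ∃ S : Finset ι, S ⊆ s ∧
        c (finrank D ↥(J.sup W)) ≤ S.card ∧ IndepOver (J.sup W) W S ∧
        ∀ i ∈ S, ¬ W i ≤ J.sup W := by
  obtain ⟨B, hB⟩ := ramsey_aux.{u, v, w} c N N N
  refine ⟨B, ?_⟩
  intro D V ι _ _ _ W s hfd hN hBs
  classical
  have hs : s.Nonempty := by
    rw [Finset.nonempty_iff_ne_empty]
    rintro rfl
    rw [Finset.sup_empty, finrank_bot] at hBs
    omega
  obtain ⟨i, hi⟩ := hs
  refine hB D V ι W s hfd hN {i} (by simpa using hi) (by simp) ?_ ?_ hBs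
  · rw [Finset.sup_singleton]
    exact hN i hi
  · intro j hj
    have := hN j hj
    omega

end Pool.Agent.Helper79.HL
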