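import Pool.Agent.Helper79.HL.Peel
import Pool.Agent.Helper72.BH.RunDefs

/-!
# Peeling a finite set of edges in the graph of a subgroup (project HL, item (5b) of note 2702)
-/

set_option autoImplicit false

namespace Pool.Agent.Helper79.HL

open FreeGroup (of)
open Pool.Agent.Helper72.BH (tg ends Run Reach proj projE)

theorem Peel.of_subtype {V E Y : Type} [DecidableEq E] {src tgt : E → V} {f : E → Y}
    {S : Finset E} {V' : Type} {src' tgt' : {e // e ∈ S} → V'} (j : V' → V)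
    (hj : Function.Injective j) (hs : ∀ e, j (src' e) = src e.1) (ht : ∀ e, j (tgt' e) = tgt e.1)
    {T : Finset {e // e ∈ S}} (h : Peel src' tgt' (fun e => f e.1) T) :
    Peel src tgt f (T.map (Function.Embedding.subtype _)) := by
  have herase : ∀ (T : Finset {e // e ∈ S}) (e : {e // e ∈ S}),
      (T.erase e).map (Function.Embedding.subtype _) =
        (T.map (Function.Embedding.subtype _)).erase e.1 := by
    intro T e
    rw [Finset.map_erase]
    rfl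
  induction h with
  | empty => exact Peel.empty
  | leaf T e he _ ih =>
    obtain ⟨heT, hne, v, hv, hv'⟩ := he
    refine Peel.leaf _ e.1 ⟨?_, ?_, j v, ?_, ?_⟩ (herase T e ▸ ih)
    · exact Finset.mem_map.2 ⟨e, heT, rfl⟩
    · intro hst
      rw [← hs, ← ht] at hst
      exact hne (hj hst)
    · rcases hv with hv | hv
      · exact Or.inl (by rw [← hs, hv])
      · exact Or.inr (by rw [← ht, hv])
    · intro e' he' hinc
      obtain ⟨e'', he'', rfl⟩ := Finset.mem_map.1 he'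
      have h1 : Inc src' tgt' v e'' := by
        rcases hinc with h1 | h1
        · exact Or.inl (hj (by rw [hs]; exact h1))
        · exact Or.inr (hj (by rw [ht]; exact h1))
      exact congrArg Subtype.val (hv' e'' he'' h1)
  | alone T e he _ ih =>
    obtain ⟨heT, he'⟩ := he
    refine Peel.alone _ e.1 ⟨Finset.mem_map.2 ⟨e, heT, rfl⟩, ?_⟩ (herase T e ▸ ih)
    intro e' he1 hfe
    obtain ⟨e'', he'', rfl⟩ := Finset.mem_map.1 he1
    exact congrArg Subtype.val (he' e'' he'' hfe)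

variable {R : ℕ}

theorem run_conn {J : Subgroup (FreeGroup (Fin R))}
    {EG : Finset ((FreeGroup (Fin R) ⧸ J) × Fin R)} {g : FreeGroup (Fin R)} (h : Run J EG g) :
    Relation.EqvGen (fun a b => ∃ e ∈ EG, e.1 = a ∧ tg e = b)
      ((1 : FreeGroup (Fin R)) : FreeGroup (Fin R) ⧸ J)
      ((g⁻¹ : FreeGroup (Fin R)) : FreeGroup (Fin R) ⧸ J) := by
  induction h with
  | one =>
    rw [inv_one]
    exact Relation.EqvGen.refl _
  | mul g x _ he ih =>
    refine ih.trans _ _ _ (Relation.EqvGen.rel _ _ ⟨_, he, rfl, ?_⟩)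
    show (of x)⁻¹ • ((g⁻¹ : FreeGroup (Fin R)) : FreeGroup (Fin R) ⧸ J) = _
    rw [mul_inv_rev]
    rfl
  | inv g x _ he ih =>
    refine ih.trans _ _ _ (Relation.EqvGen.symm _ _ (Relation.EqvGen.rel _ _ ⟨_, he, ?_, ?_⟩))
    · show ((of x * g⁻¹ : FreeGroup (Fin R)) : FreeGroup (Fin R) ⧸ J) = _
      rw [mul_inv_rev, inv_inv]
    · show (of x)⁻¹ • ((of x * g⁻¹ : FreeGroup (Fin R)) : FreeGroup (Fin R) ⧸ J) = _
      rw [MulAction.Quotient.smul_coe, smul_eq_mul, inv_mul_cancel_left]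

open Classical in
theorem peel_cosets {J : Subgroup (FreeGroup (Fin R))} {ι : Type}
    {B : ι → Subgroup (FreeGroup (Fin R))} (hJB : ∀ i, J ≤ B i)
    (EG : Finset ((FreeGroup (Fin R) ⧸ J) × Fin R)) (hr : Reach J EG) (hne : EG.Nonempty)
    (ρ : ℕ) (hρ : 1 ≤ ρ) (hE : EG.card + 1 ≤ (ends EG).card + ρ) (I : Finset ι)
    (hq : ∀ N : Finset (FreeGroup (Fin R) ⧸ J), N.Nonempty → ∃ v ∈ N,
      (I.filter (fun i => ∃ v' ∈ N, v' ≠ v ∧ proj (hJB i) v' = proj (hJB i) v)).card ≤ 1)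
    (hI : 2 * ρ ≤ I.card) :
    ∃ i ∈ I, Peel (fun a : (FreeGroup (Fin R) ⧸ J) × Fin R => a.1) tg (projE (hJB i)) EG := by
  have hmem : ∀ v, v ∈ ends EG ↔ (∃ a ∈ EG, a.1 = v) ∨ (∃ a ∈ EG, tg a = v) := by
    intro v
    simp only [ends, Finset.mem_union, Finset.mem_image]
  let V' := {v // v ∈ ends EG}
  let src' : {e // e ∈ EG} → V' := fun e => ⟨e.1.1, (hmem _).2 (Or.inl ⟨e.1, e.2, rfl⟩)⟩
  let tgt' : {e // e ∈ EG} → V' := fun e => ⟨tg e.1, (hmem _).2 (Or.inr ⟨e.1, e.2, rfl⟩)⟩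
  have hne' : Nonempty V' := by
    obtain ⟨a, ha⟩ := hne
    exact ⟨src' ⟨a, ha⟩⟩
  have hbase : ∀ v ∈ ends EG, Relation.EqvGen (fun a b => ∃ e ∈ EG, e.1 = a ∧ tg e = b)
      ((1 : FreeGroup (Fin R)) : FreeGroup (Fin R) ⧸ J) v := by
    intro v hv
    rcases (hmem v).1 hv with ⟨a, ha, rfl⟩ | ⟨a, ha, rfl⟩
    · obtain ⟨g, hg, hga⟩ := hr a ha
      rw [← hga]
      exact run_conn hg
    · obtain ⟨g, hg, hga⟩ := hr a ha
      have h1 := run_conn hg
      rw [hga] at h1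
      exact h1.trans _ _ _ (Relation.EqvGen.rel _ _ ⟨a, ha, rfl, rfl⟩)
  have htrans : ∀ a b : FreeGroup (Fin R) ⧸ J,
      Relation.EqvGen (fun a b => ∃ e ∈ EG, e.1 = a ∧ tg e = b) a b →
      a = b ∨ ∃ (ha : a ∈ ends EG) (hb : b ∈ ends EG),
        Relation.EqvGen (fun v w => ∃ e, src' e = v ∧ tgt' e = w) ⟨a, ha⟩ ⟨b, hb⟩ := by
    intro a b h
    induction h with
    | rel a b h =>
      obtain ⟨e, he, rfl, rfl⟩ := h
      exact Or.inr ⟨(hmem _).2 (Or.inl ⟨e, he, rfl⟩), (hmem _).2 (Or.inr ⟨e, he, rfl⟩),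
        Relation.EqvGen.rel _ _ ⟨⟨e, he⟩, rfl, rfl⟩⟩
    | refl a => exact Or.inl rfl
    | symm a b _ ih =>
      rcases ih with rfl | ⟨ha, hb, h⟩
      · exact Or.inl rfl
      · exact Or.inr ⟨hb, ha, h.symm⟩
    | trans a b c _ _ ih1 ih2 =>
      rcases ih1 with rfl | ⟨ha, hb, h1⟩
      · exact ih2
      · rcases ih2 with rfl | ⟨hb', hc, h2⟩
        · exact Or.inr ⟨ha, hb, h1⟩
        · exact Or.inr ⟨ha, hc, h1.trans _ _ _ h2⟩
  have hconn : ∀ v w : V', Relation.EqvGen (fun a b => ∃ e, src' e = a ∧ tgt' e = b) v w := by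
    intro v w
    have h1 := (Relation.EqvGen.symm _ _ (hbase v.1 v.2)).trans _ _ _ (hbase w.1 w.2)
    rcases htrans _ _ h1 with h2 | ⟨_, _, h2⟩
    · rw [Subtype.ext h2]
      exact Relation.EqvGen.refl _
    · exact h2
  have hE' : Fintype.card {e // e ∈ EG} + 1 ≤ Fintype.card V' + ρ := by
    rw [Fintype.card_coe, Fintype.card_coe]
    exact hE
  have hact : ∀ U : Finset {e // e ∈ EG}, U.Nonempty →
      (∀ e ∈ U, ∀ e' ∈ U, (e.1.2 : Fin R) = e'.1.2) →
      ∃ u ∈ U, ∀ i ∈ I, ∀ j ∈ I,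
        (∃ u' ∈ U, u' ≠ u ∧ projE (hJB i) u'.1 = projE (hJB i) u.1) →
        (∃ u' ∈ U, u' ≠ u ∧ projE (hJB j) u'.1 = projE (hJB j) u.1) → i = j := by
    intro U hU hlab
    obtain ⟨v, hv, hcard⟩ := hq (U.image (fun e => e.1.1)) (hU.image _)
    obtain ⟨u, hu, rfl⟩ := Finset.mem_image.1 hv
    refine ⟨u, hu, ?_⟩
    rw [Finset.card_le_one] at hcard
    have key : ∀ i ∈ I, (∃ u' ∈ U, u' ≠ u ∧ projE (hJB i) u'.1 = projE (hJB i) u.1) →
        i ∈ I.filter (fun i => ∃ v' ∈ U.image (fun e : {e // e ∈ EG} => e.1.1), v' ≠ u.1.1 ∧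
          proj (hJB i) v' = proj (hJB i) u.1.1) := by
      rintro i hi ⟨u', hu', hne, heq⟩
      refine Finset.mem_filter.2 ⟨hi, u'.1.1, Finset.mem_image_of_mem _ hu', ?_,
        (Prod.ext_iff.1 heq).1⟩
      intro h
      exact hne (Subtype.ext (Prod.ext h (hlab u' hu' u hu)))
    intro i hi j hj h1 h2
    exact hcard i (key i hi h1) j (key j hj h2)
  obtain ⟨i, hi, hp⟩ := peel_exists src' tgt' hconn ρ hρ hE'
    (fun i (e : {e // e ∈ EG}) => projE (hJB i) e.1) (fun e => e.1.2)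
    (fun i e e' h => (Prod.ext_iff.1 h).2) I hact hI
  refine ⟨i, hi, ?_⟩
  have h1 := Peel.of_subtype (f := projE (hJB i)) (src := fun a => a.1) (tgt := tg)
      (Subtype.val : V' → FreeGroup (Fin R) ⧸ J) Subtype.val_injective (fun e => rfl)
      (fun e => rfl) hp
  rw [Finset.univ_eq_attach, Finset.attach_map_val] at h1
  exact h1

end Pool.Agent.Helper79.HL
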