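import Pool.Agent.Helper79.HL.GenConv
import Pool.Agent.Helper55.HL.Gen
import Pool.Agent.Helper72.BH.FillE
import Pool.Agent.Helper32.OR.Fin1

/-!
# Free groups and random one-relator groups are tame (project HL)
-/

set_option autoImplicit false

namespace Pool.Agent.Helper79.HL

open FreeGroup (of)
open Pool.Agent.Helper22.OR (Gen Hyp Letter RRset gens free_rank hyp_of_goodRel)
open Pool.Agent.Helper32.OR (AAS OneRel SC GoodRel cyc cycWord aas_good aas_mono hyp_congr
  hyp_free)
open Pool.Agent.Helper72.BH (Tame FilledLe finite_filled)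

/-- `Hyp` and the bound on the runs of the relators imply `Tame`. -/
theorem tame_of_hyp {n : ℕ} {G : Type} [Group G] {f : Fin n → G} {L e s b : ℕ}
    {RR : Set (List (Letter n))} (hy : Hyp f L e s b RR)
    (hrun : ∀ x a m v, x ++ List.replicate m a ++ v ∈ RR → 2 * m ≤ e) {K : ℕ} (hK : K + 1 ≤ n) :
    Tame G K := by
  classical
  refine ⟨?_, ?_, ?_⟩
  · intro k hk H hH
    exact free_rank hy (by omega) hH
  · intro N hN H hH
    exact finite_filled hy (by omega) H hH
  · intro q T hq hT H hH
    refine tame_gen_of hy.surj ?_ H hH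
    intro S0 hS0
    obtain ⟨qq, hqq⟩ := Pool.Agent.Helper55.HL.generic_words hy hrun (q := q) (T := T)
      (by omega) (by omega) hS0.toFinset
    refine ⟨qq, ?_⟩
    intro k hk g hg hq'
    obtain ⟨β, φ, h1, h2, h3, h4⟩ := hqq k hk g
      (fun w hw => hg w (hS0.mem_toFinset.1 hw)) hq'
    refine ⟨β, φ, h1, h2, h3, ?_⟩
    intro w hw
    have h5 := h4 w (hS0.mem_toFinset.2 hw)
    have h6 : (φ.comp (FreeGroup.map (Sum.inr : β → Fin q ⊕ β))).range =
        Subgroup.closure (Set.range fun b => φ (of (Sum.inr b))) := by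
      rw [MonoidHom.range_eq_map, ← FreeGroup.closure_range_of, MonoidHom.map_closure,
        ← Set.range_comp]
      congr 1
    rw [← h6]
    exact h5

/-- Every group is tame for `K = 0`. -/
theorem tame_zero (G : Type) [Group G] : Tame G 0 := by
  have hbot : ∀ A : Subgroup G, Gen 0 A → A = ⊥ := by
    rintro A ⟨g, rfl⟩
    rw [Set.range_eq_empty, Subgroup.closure_empty]
  refine ⟨?_, ?_, ?_⟩
  · intro k hk H hH
    obtain rfl : k = 0 := by omega
    refine ⟨0, le_rfl, ?_⟩
    rw [hbot H hH]
    exact ⟨{ toFun := fun _ => 1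
             invFun := fun _ => 1
             left_inv := fun x => Subsingleton.elim _ _
             right_inv := fun x => Subsingleton.elim _ _
             map_mul' := fun _ _ => Subsingleton.elim _ _ }⟩
  · intro N hN H hH
    refine (Set.finite_singleton (⊥ : Subgroup G)).subset ?_
    rintro A ⟨k, hk, hA⟩
    obtain rfl : k = 0 := by omega
    exact hbot A hA.gen
  · intro q T hq hT
    omega

theorem tame_free (K m : ℕ) (h : K + 1 ≤ m) : Tame (FreeGroup (Fin m)) K := by
  obtain ⟨L, e, s, b, hy⟩ := hyp_free m
  exact tame_of_hyp hy (fun x a m v hw => absurd hw (Set.notMem_empty _)) h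

/-- A run of a letter in the periodic word is at most as long as the small cancellation length. -/
theorem run_cyc {n : ℕ} {c : List (Fin n × Bool)} {hc : c ≠ []} {l0 : ℕ} (hL : 2 ≤ c.length)
    (hSC : SC c hc l0) {i : ℤ} {x v : List (Fin n × Bool)} {a : Fin n × Bool} {m : ℕ}
    (h : x ++ List.replicate m a ++ v = cycWord c hc i c.length) : m ≤ l0 := by
  by_contra hm
  push Not at hm
  have hlen : x.length + m + v.length = c.length := by
    have := congrArg List.length h
    rwa [List.length_append, List.length_append, List.length_replicate,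
      Pool.Agent.Helper32.OR.length_cycWord] at this
  have h1 : ∀ t, t < m → cyc c hc (i + x.length + t) = a := by
    intro t ht
    have h2 : (cycWord c hc i c.length)[x.length + t]? = some a := by
      rw [← h, List.append_assoc, List.getElem?_append_right (by omega),
        List.getElem?_append_left (by rw [List.length_replicate]; omega),
        List.getElem?_replicate]
      rw [if_pos (by omega)]
    rw [Pool.Agent.Helper32.OR.FL1_cycWord_eq, List.getElem?_map, List.getElem?_range (by omega)] at h2
    simp only [Option.map_some, Option.some.injEq] at h2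
    rw [← h2]
    congr 1
    push_cast
    ring
  have h3 : ∀ j : ℤ, (j = i + x.length ∨ j = i + x.length + 1) →
      cycWord c hc j l0 = List.replicate l0 a := by
    intro j hj
    rw [Pool.Agent.Helper32.OR.FL1_cycWord_eq, List.eq_replicate_iff]
    refine ⟨by simp, ?_⟩
    intro y hy
    rw [List.mem_map] at hy
    obtain ⟨t, ht, rfl⟩ := hy
    rw [List.mem_range] at ht
    rcases hj with rfl | rfl
    · exact h1 t (by omega)
    · have := h1 (t + 1) (by omega)
      rw [← this]
      congr 1
      push_cast
      ring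
  have h4 := (hSC (i + x.length) (i + x.length + 1)).1
    ((h3 _ (Or.inl rfl)).trans (h3 _ (Or.inr rfl)).symm)
  have h5 : (c.length : ℤ) ∣ 1 := by
    have := (dvd_neg (a := (c.length : ℤ))).2 h4
    have h6 : -((i + (x.length : ℤ)) - (i + x.length + 1)) = 1 := by ring
    rwa [h6] at this
  have h6 := Int.le_of_dvd one_pos h5
  omega

theorem run_RR {n : ℕ} {c : List (Fin n × Bool)} {hc : c ≠ []} {l0 : ℕ} (hL : 2 ≤ c.length)
    (hSC : SC c hc l0) (x : List (Fin n × Bool)) (a : Fin n × Bool) (m : ℕ)
    (v : List (Fin n × Bool)) (h : x ++ List.replicate m a ++ v ∈ RRset c hc) :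
    2 * m ≤ 3 * l0 + 2 := by
  obtain ⟨i, h | h⟩ := h
  · have := run_cyc hL hSC h
    omega
  · have h1 : FreeGroup.invRev v ++ List.replicate m (a.1, !a.2) ++ FreeGroup.invRev x =
        cycWord c hc i c.length := by
      rw [← FreeGroup.invRev_invRev (L₁ := cycWord c hc i c.length), ← h]
      simp [FreeGroup.invRev, List.map_append, List.reverse_append]
    have := run_cyc hL hSC h1
    omega

theorem aas_tame (K n : ℕ) (h : K + 1 ≤ n) : AAS n (fun r => Tame (OneRel r) K) := by
  rcases Nat.eq_zero_or_pos K with rfl | hK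
  · have hT : ∀ r : FreeGroup (Fin n), Tame (OneRel r) 0 := fun r => tame_zero _
    unfold AAS
    refine tendsto_const_nhds.congr ?_
    intro t
    have h1 : {r : FreeGroup (Fin n) | r.norm ≤ t ∧ Tame (OneRel r) 0} =
        {r : FreeGroup (Fin n) | r.norm ≤ t} := by
      ext r
      exact ⟨fun h => h.1, fun h => ⟨h, hT r⟩⟩
    rw [h1]
    have h2 : (0 : ℝ) < (Set.ncard {r : FreeGroup (Fin n) | r.norm ≤ t} : ℝ) := by
      exact_mod_cast Pool.Agent.Helper32.OR.ball_pos n t
    rw [div_self h2.ne']
  · have hn : 2 ≤ n := by omega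
    refine aas_mono (aas_good n (100 * n + 100) hn) ?_
    rintro r ⟨c, hc, s, l0, hg, hN⟩
    have hlen := hg.len
    exact tame_of_hyp (hyp_congr (hyp_of_goodRel hn le_rfl hg) _ hN)
      (run_RR (by omega) hg.sc) h

end Pool.Agent.Helper79.HL
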