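import Mathlib

/-!
# A forest count (project HL, item (5a) of note 2702)
-/

set_option autoImplicit false

namespace Pool.Agent.Helper79.HL

/-- A finite nonempty acyclic graph has a vertex with at most one neighbour. -/
theorem acyclic_exists_leaf {N : Type*} [Finite N] [Nonempty N] (G : SimpleGraph N)
    (h : G.IsAcyclic) : ∃ v, ∀ a b, G.Adj v a → G.Adj v b → a = b := by
  classical
  have : Fintype N := Fintype.ofFinite N
  let A : Set ℕ := {n | ∃ (u v : N) (p : G.Walk u v), p.IsPath ∧ p.length = n}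
  have hne : A.Nonempty := by
    obtain ⟨u⟩ := ‹Nonempty N›
    exact ⟨0, u, u, SimpleGraph.Walk.nil, by simp, rfl⟩
  have hbd : BddAbove A := by
    refine ⟨Fintype.card N, ?_⟩
    rintro n ⟨u, v, p, hp, rfl⟩
    exact hp.length_lt.le
  obtain ⟨u, v, p, hp, hlen⟩ := Nat.sSup_mem hne hbd
  refine ⟨u, ?_⟩
  have key : ∀ w, G.Adj u w → w = p.snd := by
    intro w hw
    by_cases hws : w ∈ p.support
    · exact h.eq_snd_of_adj_start hp hw hws
    · exfalso
      have h1 : (SimpleGraph.Walk.cons hw.symm p).IsPath := by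
        rw [SimpleGraph.Walk.cons_isPath_iff]
        exact ⟨hp, hws⟩
      have h2 : p.length + 1 ∈ A := ⟨w, v, _, h1, by simp⟩
      have h3 := le_csSup hbd h2
      omega
  intro a b ha hb
  rw [key a ha, key b hb]

/-- The bipartite graph with vertices `L` and `(i, r)`, `r : R i`, and edges `l - (i, p i l)`. -/
def forestGraph {ι L : Type*} {R : ι → Type*} (p : ∀ i, L → R i) : SimpleGraph (L ⊕ Σ i, R i) :=
  SimpleGraph.fromRel (fun a b => ∃ i l, a = Sum.inl l ∧ b = Sum.inr ⟨i, p i l⟩)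

theorem forestGraph_adj {ι L : Type*} {R : ι → Type*} (p : ∀ i, L → R i) (l : L) (i : ι) :
    (forestGraph p).Adj (Sum.inl l) (Sum.inr ⟨i, p i l⟩) := by
  unfold forestGraph
  rw [SimpleGraph.fromRel_adj]
  exact ⟨by simp, Or.inl ⟨i, l, rfl, rfl⟩⟩

/-- In a forest, every nonempty finite set `U` of vertices on the left contains an element which
shares its image with another element of `U` for at most one index. -/
theorem forest_act {ι L : Type*} {R : ι → Type*} (p : ∀ i, L → R i)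
    (h : (forestGraph p).IsAcyclic) (U : Finset L) (hU : U.Nonempty) (I : Finset ι) :
    ∃ u ∈ U, ∀ i ∈ I, ∀ j ∈ I, (∃ u' ∈ U, u' ≠ u ∧ p i u' = p i u) →
      (∃ u' ∈ U, u' ≠ u ∧ p j u' = p j u) → i = j := by
  classical
  by_contra hcon
  push Not at hcon
  let s : Set (L ⊕ Σ i, R i) :=
    (Sum.inl '' (U : Set L)) ∪
      {x | ∃ i ∈ I, ∃ u ∈ U, ∃ u' ∈ U, u' ≠ u ∧ p i u' = p i u ∧ x = Sum.inr ⟨i, p i u⟩}
  have hsfin : s.Finite := by
    refine Set.Finite.union (U.finite_toSet.image _) ?_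
    refine Set.Finite.subset ((I ×ˢ U).finite_toSet.image
      (fun z => (Sum.inr ⟨z.1, p z.1 z.2⟩ : L ⊕ Σ i, R i))) ?_
    rintro x ⟨i, hi, u, hu, u', hu', -, -, rfl⟩
    exact ⟨(i, u), by simp [hi, hu], rfl⟩
  have : Finite s := hsfin
  obtain ⟨u0, hu0⟩ := hU
  have : Nonempty s := ⟨⟨Sum.inl u0, Or.inl ⟨u0, hu0, rfl⟩⟩⟩
  obtain ⟨⟨v, hv⟩, hleaf⟩ := acyclic_exists_leaf ((forestGraph p).induce s) (h.induce s)
  rcases hv with ⟨u, hu, rfl⟩ | ⟨i, hi, u, hu, u', hu', hne, heq, rfl⟩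
  · obtain ⟨i, hi, j, hj, ⟨a, ha, hau, hae⟩, ⟨b, hb, hbu, hbe⟩, hij⟩ := hcon u hu
    have h1 := hleaf ⟨Sum.inr ⟨i, p i u⟩, Or.inr ⟨i, hi, u, hu, a, ha, hau, hae, rfl⟩⟩
      ⟨Sum.inr ⟨j, p j u⟩, Or.inr ⟨j, hj, u, hu, b, hb, hbu, hbe, rfl⟩⟩
      (forestGraph_adj p u i) (forestGraph_adj p u j)
    have h2 : (Sum.inr ⟨i, p i u⟩ : L ⊕ Σ i, R i) = Sum.inr ⟨j, p j u⟩ := congrArg Subtype.val h1
    rw [Sum.inr.injEq] at h2
    exact hij (congrArg Sigma.fst h2)
  · have h1 := hleaf ⟨Sum.inl u, Or.inl ⟨u, hu, rfl⟩⟩ ⟨Sum.inl u', Or.inl ⟨u', hu', rfl⟩⟩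
      (forestGraph_adj p u i).symm (by
        have := (forestGraph_adj p u' i).symm
        rw [heq] at this
        exact this)
    have h2 : (Sum.inl u : L ⊕ Σ i, R i) = Sum.inl u' := congrArg Subtype.val h1
    rw [Sum.inl.injEq] at h2
    exact hne h2.symm

end Pool.Agent.Helper79.HL
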