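import Pool.Agent.Helper72.BH.GameDefs
import Pool.Agent.Helper22.OR.Hopf

/-!
# Generic elements: conversion to the format of `Tame.gen` (project HL)
-/

set_option autoImplicit false

namespace Pool.Agent.Helper79.HL

open FreeGroup (of)
open Pool.Agent.Helper22.OR (Gen card_le_of_gen)

theorem tame_gen_of {n : ℕ} {G : Type} [Group G] {f : Fin n → G}
    (hsurj : Function.Surjective (FreeGroup.lift f)) {q T : ℕ}
    (h55 : ∀ S0 : Set (FreeGroup (Fin n)), S0.Finite → ∃ qq : Fin q → G,
      ∀ k, k ≤ T → ∀ g : Fin k → G,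
        (∀ w ∈ S0, FreeGroup.lift f w ∈ Subgroup.closure (Set.range g)) →
        (∀ j, qq j ∈ Subgroup.closure (Set.range g)) →
        ∃ (β : Type) (φ : FreeGroup (Fin q ⊕ β) →* G), Function.Injective φ ∧
          φ.range = Subgroup.closure (Set.range g) ∧ (∀ j, φ (of (Sum.inl j)) = qq j) ∧
          ∀ w ∈ S0, FreeGroup.lift f w ∈ Subgroup.closure (Set.range fun b => φ (of (Sum.inr b))))
    (H : Subgroup G) (hH : H.FG) :
    ∃ y : Fin q → G, ∀ J : Subgroup G, Gen T J → H ≤ J → (∀ i, y i ∈ J) →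
      ∃ (c : ℕ) (a : Fin c → G), Function.Injective (FreeGroup.lift (Fin.append a y)) ∧
        Subgroup.closure (Set.range a) ⊔ Subgroup.closure (Set.range y) = J ∧
        H ≤ Subgroup.closure (Set.range a) := by
  classical
  obtain ⟨S, hS⟩ := hH
  obtain ⟨qq, hqq⟩ := h55 (((S : Set G)).image fun h => (hsurj h).choose) (S.finite_toSet.image _)
  refine ⟨qq, ?_⟩
  rintro J ⟨g, rfl⟩ hHJ hyJ
  obtain ⟨β, φ, hinj, hran, hφ, hw⟩ := hqq T le_rfl g (by
    rintro w ⟨h, hh, rfl⟩
    have h1 := (hsurj h).choose_spec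
    rw [h1]
    apply hHJ
    rw [← hS]
    exact Subgroup.subset_closure hh) hyJ
  have hfin : Finite (Fin q ⊕ β) := by
    have hmem : ∀ i, g i ∈ φ.range := fun i => by
      rw [hran]
      exact Subgroup.subset_closure ⟨i, rfl⟩
    have htop : Subgroup.closure (Set.range fun i => (⟨g i, hmem i⟩ : φ.range)) = ⊤ := by
      apply Subgroup.map_injective (Subgroup.subtype_injective φ.range)
      rw [MonoidHom.map_closure, ← MonoidHom.range_eq_map, Subgroup.range_subtype,
        ← Set.range_comp]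
      exact hran.symm
    exact (card_le_of_gen (MonoidHom.ofInjective hinj) _ htop).1
  have hfinβ : Finite β := Finite.of_injective (Sum.inr : β → Fin q ⊕ β) Sum.inr_injective
  let e : β ≃ Fin (Nat.card β) := Finite.equivFin β
  let a : Fin (Nat.card β) → G := fun i => φ (of (Sum.inr (e.symm i)))
  have hra : Set.range a = Set.range fun b => φ (of (Sum.inr b)) := by
    ext z
    constructor
    · rintro ⟨i, rfl⟩
      exact ⟨e.symm i, rfl⟩
    · rintro ⟨b, rfl⟩
      exact ⟨e b, by simp [a]⟩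
  have hry : Set.range qq = Set.range fun j : Fin q => φ (of (Sum.inl j)) := by
    congr 1
    funext j
    exact (hφ j).symm
  refine ⟨Nat.card β, a, ?_, ?_, ?_⟩
  · let σ : Fin (Nat.card β + q) ≃ Fin q ⊕ β :=
      (finSumFinEquiv.symm.trans (Equiv.sumCongr e.symm (Equiv.refl (Fin q)))).trans
        (Equiv.sumComm β (Fin q))
    have h1 : FreeGroup.lift (Fin.append a qq) =
        φ.comp (FreeGroup.freeGroupCongr σ).toMonoidHom := by
      ext i
      refine Fin.addCases (fun j => ?_) (fun j => ?_) i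
      · simp [σ, a]
      · simp [σ, hφ]
    rw [h1]
    exact hinj.comp (FreeGroup.freeGroupCongr σ).injective
  · rw [← Subgroup.closure_union, hra, hry, ← hran]
    have h1 : φ.range = Subgroup.closure (Set.range fun i : Fin q ⊕ β => φ (of i)) := by
      rw [MonoidHom.range_eq_map, ← FreeGroup.closure_range_of, MonoidHom.map_closure,
        ← Set.range_comp]
      rfl
    rw [h1]
    congr 1
    ext z
    constructor
    · rintro (⟨b, rfl⟩ | ⟨j, rfl⟩)
      · exact ⟨Sum.inr b, rfl⟩
      · exact ⟨Sum.inl j, rfl⟩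
    · rintro ⟨j | b, rfl⟩
      · exact Or.inr ⟨j, rfl⟩
      · exact Or.inl ⟨b, rfl⟩
  · rw [← hS, Subgroup.closure_le, hra]
    intro h hh
    have h1 := hw _ ⟨h, hh, rfl⟩
    rwa [(hsurj h).choose_spec] at h1

end Pool.Agent.Helper79.HL
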