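import Pool.Agent.Helper79.HL.PeelDefs

/-!
# Peeling a finite graph (project HL, item (5b) of note 2702)

A finite connected graph with `|E| + 1 ≤ |V| + ρ`, `ρ ≥ 1`, and at least `2 ρ` petals with the
property of `forest_act`: some petal survives the peeling.
-/

set_option autoImplicit false

namespace Pool.Agent.Helper79.HL

open Finset

section Degrees

variable {V E : Type} [Fintype V] [DecidableEq V] [DecidableEq E] (src tgt : E → V)

/-- The degree of `v` in the set `S` of edges. -/
def dg (S : Finset E) (v : V) : ℕ :=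
  (S.filter (fun e => src e = v)).card + (S.filter (fun e => tgt e = v)).card

/-- The vertices of `S`. -/
def vs (S : Finset E) : Finset V := univ.filter (fun v => dg src tgt S v ≠ 0)

/-- No vertex of degree one. -/
def Leafless (S : Finset E) : Prop := ∀ v, dg src tgt S v ≠ 1

theorem mem_vs (S : Finset E) (v : V) : v ∈ vs src tgt S ↔ dg src tgt S v ≠ 0 := by
  simp [vs]

theorem src_mem_vs {S : Finset E} {e : E} (he : e ∈ S) : src e ∈ vs src tgt S := by
  rw [mem_vs]
  have h1 : 0 < (S.filter (fun e' => src e' = src e)).card :=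
    Finset.card_pos.2 ⟨e, Finset.mem_filter.2 ⟨he, rfl⟩⟩
  unfold dg
  omega

theorem tgt_mem_vs {S : Finset E} {e : E} (he : e ∈ S) : tgt e ∈ vs src tgt S := by
  rw [mem_vs]
  have h1 : 0 < (S.filter (fun e' => tgt e' = tgt e)).card :=
    Finset.card_pos.2 ⟨e, Finset.mem_filter.2 ⟨he, rfl⟩⟩
  unfold dg
  omega

theorem sum_dg (S : Finset E) : ∑ v, dg src tgt S v = 2 * S.card := by
  unfold dg
  rw [Finset.sum_add_distrib]
  have h1 := Finset.card_eq_sum_card_fiberwise (f := src) (s := S) (t := Finset.univ)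
    (fun _ _ => by simp)
  have h2 := Finset.card_eq_sum_card_fiberwise (f := tgt) (s := S) (t := Finset.univ)
    (fun _ _ => by simp)
  omega

theorem dg_mono {S' S : Finset E} (h : S' ⊆ S) (v : V) : dg src tgt S' v ≤ dg src tgt S v :=
  Nat.add_le_add (Finset.card_le_card (Finset.filter_subset_filter _ h))
    (Finset.card_le_card (Finset.filter_subset_filter _ h))

theorem vs_mono {S' S : Finset E} (h : S' ⊆ S) : vs src tgt S' ⊆ vs src tgt S := by
  intro v hv
  rw [mem_vs] at hv ⊢
  have := dg_mono src tgt h v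
  omega

theorem dg_sdiff {S' S : Finset E} (h : S' ⊆ S) (v : V) :
    dg src tgt (S \ S') v + dg src tgt S' v = dg src tgt S v := by
  have key : ∀ p : E → Prop, ∀ [DecidablePred p], ((S \ S').filter p).card + (S'.filter p).card =
      (S.filter p).card := by
    intro p _
    rw [← Finset.card_union_of_disjoint]
    · rw [← Finset.filter_union, Finset.sdiff_union_of_subset h]
    · exact Finset.disjoint_filter_filter Finset.sdiff_disjoint
  unfold dg
  have h1 := key (fun e => src e = v)
  have h2 := key (fun e => tgt e = v)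
  omega

theorem card_vs {S : Finset E} (h : Leafless src tgt S) :
    ∑ v, (dg src tgt S v - 2) + 2 * (vs src tgt S).card = 2 * S.card := by
  rw [← sum_dg src tgt S]
  unfold vs
  rw [Finset.card_filter, Finset.mul_sum, ← Finset.sum_add_distrib]
  refine Finset.sum_congr rfl fun v _ => ?_
  have h1 := h v
  by_cases h0 : dg src tgt S v = 0
  · simp [h0]
  · rw [if_pos h0]
    omega

/-- Comparison of two leafless sets. -/
theorem leafless_compare {S' S : Finset E} (hS' : Leafless src tgt S') (hS : Leafless src tgt S)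
    (h : S' ⊆ S) :
    (S'.card + 1 + (vs src tgt S).card ≤ S.card + (vs src tgt S').card) ∨
    (S'.card + (vs src tgt S).card = S.card + (vs src tgt S').card ∧
      Leafless src tgt (S \ S') ∧ Disjoint (vs src tgt S') (vs src tgt (S \ S'))) := by
  have h1 := card_vs src tgt hS'
  have h2 := card_vs src tgt hS
  have hle : ∀ v ∈ (Finset.univ : Finset V), dg src tgt S' v - 2 ≤ dg src tgt S v - 2 := fun v _ =>
    Nat.sub_le_sub_right (dg_mono src tgt h v) 2
  have h3 := Finset.sum_le_sum hle
  by_cases heq : ∑ v, (dg src tgt S' v - 2) = ∑ v, (dg src tgt S v - 2)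
  · right
    have h4 := (Finset.sum_eq_sum_iff_of_le hle).1 heq
    refine ⟨by omega, ?_, ?_⟩
    · intro v
      have h5 := h4 v (Finset.mem_univ v)
      have h6 := dg_sdiff src tgt h v
      have h7 := hS' v
      have h8 := hS v
      omega
    · rw [Finset.disjoint_left]
      intro v hv hv'
      rw [mem_vs] at hv hv'
      have h5 := h4 v (Finset.mem_univ v)
      have h6 := dg_sdiff src tgt h v
      have h7 := hS' v
      have h8 := hS v
      omega
  · left
    omega

theorem leafless_of_no_leaf {S : Finset E} (h : ∀ e, ¬ IsLeaf src tgt S e) :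
    Leafless src tgt S := by
  intro v hv
  unfold dg at hv
  have h1 : ((S.filter (fun e => src e = v)).card = 1 ∧ (S.filter (fun e => tgt e = v)).card = 0) ∨
      ((S.filter (fun e => src e = v)).card = 0 ∧ (S.filter (fun e => tgt e = v)).card = 1) := by
    omega
  rcases h1 with ⟨h2, h3⟩ | ⟨h2, h3⟩
  · obtain ⟨e, he⟩ := Finset.card_eq_one.1 h2
    rw [Finset.card_eq_zero] at h3
    have heS : e ∈ S.filter (fun e => src e = v) := by rw [he]; exact Finset.mem_singleton_self e
    rw [Finset.mem_filter] at heS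
    have hno : ∀ e' ∈ S, tgt e' ≠ v := by
      intro e' he' hte
      have : e' ∈ S.filter (fun e => tgt e = v) := Finset.mem_filter.2 ⟨he', hte⟩
      rw [h3] at this
      simp at this
    refine h e ⟨heS.1, ?_, v, Or.inl heS.2, ?_⟩
    · intro hst
      exact hno e heS.1 (hst ▸ heS.2)
    · intro e' he' hinc
      rcases hinc with hs | ht
      · have : e' ∈ S.filter (fun e => src e = v) := Finset.mem_filter.2 ⟨he', hs⟩
        rw [he] at this
        exact Finset.mem_singleton.1 this
      · exact absurd ht (hno e' he')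
  · obtain ⟨e, he⟩ := Finset.card_eq_one.1 h3
    rw [Finset.card_eq_zero] at h2
    have heS : e ∈ S.filter (fun e => tgt e = v) := by rw [he]; exact Finset.mem_singleton_self e
    rw [Finset.mem_filter] at heS
    have hno : ∀ e' ∈ S, src e' ≠ v := by
      intro e' he' hte
      have : e' ∈ S.filter (fun e => src e = v) := Finset.mem_filter.2 ⟨he', hte⟩
      rw [h2] at this
      simp at this
    refine h e ⟨heS.1, ?_, v, Or.inr heS.2, ?_⟩
    · intro hst
      exact hno e heS.1 (hst ▸ heS.2)
    · intro e' he' hinc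
      rcases hinc with hs | ht
      · exact absurd hs (hno e' he')
      · have : e' ∈ S.filter (fun e => tgt e = v) := Finset.mem_filter.2 ⟨he', ht⟩
        rw [he] at this
        exact Finset.mem_singleton.1 this

/-- A leafless subset `S0` of `S` and a family of vertex-disjoint leafless subsets of `S0`. -/
def Conf (S S0 : Finset E) (P : Finset (Finset E)) : Prop :=
  S0 ⊆ S ∧ Leafless src tgt S0 ∧ (∀ T ∈ P, T ⊆ S0 ∧ T.Nonempty ∧ Leafless src tgt T) ∧
    ∀ T ∈ P, ∀ T' ∈ P, T ≠ T' → Disjoint (vs src tgt T) (vs src tgt T')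

/-- The potential of `S` is at most `N`. -/
def Bound (S : Finset E) (N : ℕ) : Prop :=
  ∀ S0 P, Conf src tgt S S0 P → S0.card + P.card ≤ (vs src tgt S0).card + N

theorem Bound.mono {S' S : Finset E} {N : ℕ} (h : Bound src tgt S N) (hS : S' ⊆ S) :
    Bound src tgt S' N :=
  fun S0 P hc => h S0 P ⟨hc.1.trans hS, hc.2⟩

theorem Bound.step {S : Finset E} {N : ℕ} (h : Bound src tgt S N) (hS : Leafless src tgt S)
    {u : E} (hu : u ∈ S) : ∃ M, N = M + 1 ∧ Bound src tgt (S.erase u) M := by
  have hvs : ∀ S0 : Finset E, Leafless src tgt S0 → (vs src tgt S0).card ≤ S0.card := by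
    intro S0 h0
    have := card_vs src tgt h0
    omega
  have hN : 1 ≤ N := by
    have h1 := h S {S} ⟨Finset.Subset.refl S, hS, by simpa using ⟨⟨u, hu⟩, hS⟩, by simp⟩
    have h2 := hvs S hS
    simp at h1
    omega
  refine ⟨N - 1, by omega, ?_⟩
  intro S0 P hc
  obtain ⟨hc1, hc2, hc3, hc4⟩ := hc
  have hsub : S0 ⊆ S := hc1.trans (Finset.erase_subset _ _)
  have huS0 : u ∉ S0 := fun hu0 => (Finset.mem_erase.1 (hc1 hu0)).1 rfl
  rcases leafless_compare src tgt hc2 hS hsub with hlt | ⟨heq, hT, hdis⟩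
  · have h1 := h S P ⟨Finset.Subset.refl S, hS, fun T hT => ⟨(hc3 T hT).1.trans hsub, (hc3 T hT).2⟩,
      hc4⟩
    have h2 := hvs S hS
    have h3 := hvs S0 hc2
    omega
  · have hnot : S \ S0 ∉ P := by
      intro hmem
      exact huS0 ((hc3 _ hmem).1 (Finset.mem_sdiff.2 ⟨hu, huS0⟩))
    have h1 := h S (insert (S \ S0) P) ⟨Finset.Subset.refl S, hS, ?_, ?_⟩
    · rw [Finset.card_insert_of_notMem hnot] at h1
      omega
    · intro T hT'
      rcases Finset.mem_insert.1 hT' with rfl | hT'
      · exact ⟨Finset.sdiff_subset, ⟨u, Finset.mem_sdiff.2 ⟨hu, huS0⟩⟩, hT⟩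
      · exact ⟨(hc3 T hT').1.trans hsub, (hc3 T hT').2⟩
    · intro T hT1 T' hT2 hne
      rcases Finset.mem_insert.1 hT1 with rfl | hT1
      · rcases Finset.mem_insert.1 hT2 with rfl | hT2
        · exact absurd rfl hne
        · exact (hdis.mono_left (vs_mono src tgt (hc3 T' hT2).1)).symm
      · rcases Finset.mem_insert.1 hT2 with rfl | hT2
        · exact hdis.mono_left (vs_mono src tgt (hc3 T hT1).1)
        · exact hc4 T hT1 T' hT2 hne

end Degrees

/-- The peeling. -/
theorem peel_aux {V E ι X : Type} [Fintype V] [DecidableEq V] [DecidableEq E] (src tgt : E → V)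
    {Y : ι → Type} (f : ∀ i, E → Y i) (lab : E → X)
    (hlab : ∀ i e e', f i e = f i e' → lab e = lab e') (I : Finset ι)
    (hact : ∀ U : Finset E, U.Nonempty → (∀ e ∈ U, ∀ e' ∈ U, lab e = lab e') →
      ∃ u ∈ U, ∀ i ∈ I, ∀ j ∈ I, (∃ u' ∈ U, u' ≠ u ∧ f i u' = f i u) →
        (∃ u' ∈ U, u' ≠ u ∧ f j u' = f j u) → i = j) :
    ∀ (n : ℕ) (S : Finset E), S.card = n → ∀ (N : ℕ) (I' : Finset ι), I' ⊆ I →
      Bound src tgt S N → N < I'.card → ∃ j ∈ I', Peel src tgt (f j) S := by
  classical
  intro n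
  induction n with
  | zero =>
    intro S hS N I' _ _ hN
    rw [Finset.card_eq_zero] at hS
    subst hS
    obtain ⟨j, hj⟩ := Finset.card_pos.1 (by omega : 0 < I'.card)
    exact ⟨j, hj, Peel.empty⟩
  | succ n ih =>
    intro S hS N I' hI' hB hN
    by_cases hleaf : ∃ e, IsLeaf src tgt S e
    · obtain ⟨e, he⟩ := hleaf
      have hcard : (S.erase e).card = n := by rw [Finset.card_erase_of_mem he.1]; omega
      obtain ⟨j, hj, hp⟩ := ih (S.erase e) hcard N I' hI'
        (hB.mono src tgt (Finset.erase_subset _ _)) hN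
      exact ⟨j, hj, Peel.leaf S e he hp⟩
    · push Not at hleaf
      have hll := leafless_of_no_leaf src tgt hleaf
      obtain ⟨e0, he0⟩ := Finset.card_pos.1 (by omega : 0 < S.card)
      obtain ⟨u, hu, hua⟩ := hact (S.filter (fun e => lab e = lab e0))
        ⟨e0, Finset.mem_filter.2 ⟨he0, rfl⟩⟩
        (fun e he e' he' => by rw [(Finset.mem_filter.1 he).2, (Finset.mem_filter.1 he').2])
      rw [Finset.mem_filter] at hu
      obtain ⟨M, hNM, hBM⟩ := hB.step src tgt hll hu.1
      let bad : Finset ι := I'.filter (fun i => ∃ u' ∈ S, u' ≠ u ∧ f i u' = f i u)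
      have hbad : bad.card ≤ 1 := by
        rw [Finset.card_le_one]
        intro i hi j hj
        obtain ⟨hi1, u1, hu1, hu2, hu3⟩ := Finset.mem_filter.1 hi
        obtain ⟨hj1, w1, hw1, hw2, hw3⟩ := Finset.mem_filter.1 hj
        refine hua i (hI' hi1) j (hI' hj1) ⟨u1, ?_, hu2, hu3⟩ ⟨w1, ?_, hw2, hw3⟩
        · exact Finset.mem_filter.2 ⟨hu1, (hlab i _ _ hu3).trans hu.2⟩
        · exact Finset.mem_filter.2 ⟨hw1, (hlab j _ _ hw3).trans hu.2⟩
      have hcard : (S.erase u).card = n := by rw [Finset.card_erase_of_mem hu.1]; omega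
      have hcI : M < (I' \ bad).card := by
        have h1 := Finset.le_card_sdiff bad I'
        omega
      obtain ⟨j, hj, hp⟩ := ih (S.erase u) hcard M (I' \ bad)
        (Finset.sdiff_subset.trans hI') hBM hcI
      rw [Finset.mem_sdiff] at hj
      refine ⟨j, hj.1, Peel.alone S u ⟨hu.1, ?_⟩ hp⟩
      intro e' he' hfe
      by_contra hne
      exact hj.2 (Finset.mem_filter.2 ⟨hj.1, e', he', hne, hfe⟩)

/-- A connected graph on the classes of a partition. -/
theorem conn_card {V E : Type} [Fintype E] (src tgt : E → V)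
    (hconn : ∀ v w, Relation.EqvGen (fun a b => ∃ e, src e = a ∧ tgt e = b) v w)
    {Q : Type} [Fintype Q] [DecidableEq Q] [Nonempty Q] (q : V → Q) (hq : Function.Surjective q) :
    Fintype.card Q ≤ (Finset.univ.filter (fun e => q (src e) ≠ q (tgt e))).card + 1 := by
  classical
  let G : SimpleGraph Q := SimpleGraph.fromRel (fun a b => ∃ e, q (src e) = a ∧ q (tgt e) = b)
  have hreach : ∀ v w, Relation.EqvGen (fun a b => ∃ e, src e = a ∧ tgt e = b) v w →
      G.Reachable (q v) (q w) := by
    intro v w h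
    induction h with
    | rel a b h =>
      obtain ⟨e, rfl, rfl⟩ := h
      by_cases hab : q (src e) = q (tgt e)
      · rw [hab]
      · refine SimpleGraph.Adj.reachable ?_
        rw [SimpleGraph.fromRel_adj]
        exact ⟨hab, Or.inl ⟨e, rfl, rfl⟩⟩
    | refl a => exact SimpleGraph.Reachable.refl _
    | symm a b _ ih => exact ih.symm
    | trans a b c _ _ ih1 ih2 => exact ih1.trans ih2
  have hG : G.Connected := by
    refine ⟨?_⟩
    intro a b
    obtain ⟨v, rfl⟩ := hq a
    obtain ⟨w, rfl⟩ := hq b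
    exact hreach v w (hconn v w)
  have h1 := hG.card_vert_le_card_edgeSet_add_one
  have h2 : Nat.card G.edgeSet ≤
      (Finset.univ.filter (fun e => q (src e) ≠ q (tgt e))).card := by
    let C := {e : E // e ∈ Finset.univ.filter (fun e => q (src e) ≠ q (tgt e))}
    let g : C → G.edgeSet := fun e => ⟨s(q (src e.1), q (tgt e.1)), by
      rw [SimpleGraph.mem_edgeSet, SimpleGraph.fromRel_adj]
      exact ⟨(Finset.mem_filter.1 e.2).2, Or.inl ⟨e.1, rfl, rfl⟩⟩⟩
    have hg : Function.Surjective g := by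
      rintro ⟨x, hx⟩
      induction x using Sym2.ind with
      | _ a b =>
        rw [SimpleGraph.mem_edgeSet, SimpleGraph.fromRel_adj] at hx
        obtain ⟨hab, ⟨e, rfl, rfl⟩ | ⟨e, rfl, rfl⟩⟩ := hx
        · exact ⟨⟨e, Finset.mem_filter.2 ⟨Finset.mem_univ _, hab⟩⟩, rfl⟩
        · refine ⟨⟨e, Finset.mem_filter.2 ⟨Finset.mem_univ _, hab.symm⟩⟩, ?_⟩
          exact Subtype.ext (Sym2.eq_swap)
    have h3 := Nat.card_le_card_of_surjective g hg
    rwa [Nat.card_eq_fintype_card (α := C), Fintype.card_coe] at h3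
  rw [Nat.card_eq_fintype_card (α := Q)] at h1
  omega

section Partition

variable {V E : Type} [Fintype V] [DecidableEq V] [Fintype E] [DecidableEq E] (src tgt : E → V)

/-- Collapsing vertex-disjoint sets of edges in a connected graph. -/
theorem partition_card
    (hconn : ∀ v w, Relation.EqvGen (fun a b => ∃ e, src e = a ∧ tgt e = b) v w)
    (P : Finset (Finset E)) (hne : ∀ T ∈ P, T.Nonempty)
    (hdis : ∀ T ∈ P, ∀ T' ∈ P, T ≠ T' → Disjoint (vs src tgt T) (vs src tgt T')) [Nonempty V] :
    P.card + Fintype.card V + ∑ T ∈ P, T.card ≤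
      Fintype.card E + 1 + ∑ T ∈ P, (vs src tgt T).card := by
  classical
  let W : Finset V := P.biUnion (vs src tgt)
  let Q := {T : Finset E // T ∈ P} ⊕ {v : V // v ∉ W}
  have hW : W.card = ∑ T ∈ P, (vs src tgt T).card := Finset.card_biUnion hdis
  have hchoose : ∀ v, v ∈ W → ∃ T, T ∈ P ∧ v ∈ vs src tgt T := fun v hv => by
    simpa [W] using hv
  let q : V → Q := fun v => if h : v ∈ W then
    Sum.inl ⟨(hchoose v h).choose, (hchoose v h).choose_spec.1⟩ else Sum.inr ⟨v, h⟩
  have hqT : ∀ T (hT : T ∈ P) v, v ∈ vs src tgt T → q v = Sum.inl ⟨T, hT⟩ := by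
    intro T hT v hv
    have hvW : v ∈ W := Finset.mem_biUnion.2 ⟨T, hT, hv⟩
    have h1 : (hchoose v hvW).choose = T := by
      by_contra hcon
      have h2 := hdis _ (hchoose v hvW).choose_spec.1 T hT hcon
      exact (Finset.disjoint_left.1 h2 (hchoose v hvW).choose_spec.2) hv
    simp only [q, dif_pos hvW]
    congr 1
    exact Subtype.ext h1
  have hq : Function.Surjective q := by
    rintro (⟨T, hT⟩ | ⟨v, hv⟩)
    · obtain ⟨e, he⟩ := hne T hT
      exact ⟨src e, hqT T hT _ (src_mem_vs src tgt he)⟩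
    · refine ⟨v, ?_⟩
      simp only [q, dif_neg hv]
  have hQne : Nonempty Q := by
    obtain ⟨v⟩ := ‹Nonempty V›
    exact ⟨q v⟩
  have h1 := conn_card src tgt hconn q hq
  have h2 : Fintype.card Q = P.card + (Fintype.card V - W.card) := by
    have h3 : Fintype.card {v : V // v ∉ W} = Fintype.card V - W.card := by
      rw [Fintype.card_subtype_compl, Fintype.card_coe]
    rw [Fintype.card_sum, h3, Fintype.card_coe]
  have h4 : W.card ≤ Fintype.card V := Finset.card_le_univ W
  have hdis' : ∀ T ∈ P, ∀ T' ∈ P, T ≠ T' → Disjoint T T' := by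
    intro T hT T' hT' hTT
    rw [Finset.disjoint_left]
    intro e he he'
    exact Finset.disjoint_left.1 (hdis T hT T' hT' hTT) (src_mem_vs src tgt he)
      (src_mem_vs src tgt he')
  have h5 : (P.biUnion id).card = ∑ T ∈ P, T.card := Finset.card_biUnion hdis'
  have h6 : (Finset.univ.filter (fun e => q (src e) ≠ q (tgt e))).card + (P.biUnion id).card ≤
      Fintype.card E := by
    rw [← Finset.card_union_of_disjoint]
    · exact Finset.card_le_univ _
    · rw [Finset.disjoint_left]
      intro e he he'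
      obtain ⟨T, hT, heT⟩ := Finset.mem_biUnion.1 he'
      apply (Finset.mem_filter.1 he).2
      rw [hqT T hT _ (src_mem_vs src tgt heT), hqT T hT _ (tgt_mem_vs src tgt heT)]
  omega

theorem bound_univ
    (hconn : ∀ v w, Relation.EqvGen (fun a b => ∃ e, src e = a ∧ tgt e = b) v w) [Nonempty V]
    (ρ : ℕ) (hρ : 1 ≤ ρ) (hE : Fintype.card E + 1 ≤ Fintype.card V + ρ) :
    Bound src tgt (Finset.univ : Finset E) (2 * ρ - 1) := by
  intro S0 P hc
  obtain ⟨-, h0, hP, hdis⟩ := hc
  have hvs : ∀ S0 : Finset E, Leafless src tgt S0 → (vs src tgt S0).card ≤ S0.card := by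
    intro S0 h0
    have := card_vs src tgt h0
    omega
  by_cases hS0 : S0.Nonempty
  · have h1 := partition_card src tgt hconn {S0} (by simpa using hS0) (by simp)
    have h2 := partition_card src tgt hconn P (fun T hT => (hP T hT).2.1) hdis
    have h3 : ∑ T ∈ P, (vs src tgt T).card ≤ ∑ T ∈ P, T.card :=
      Finset.sum_le_sum fun T hT => hvs T (hP T hT).2.2
    simp only [Finset.card_singleton, Finset.sum_singleton] at h1
    omega
  · rw [Finset.not_nonempty_iff_eq_empty] at hS0
    subst hS0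
    have hPe : P = ∅ := by
      rw [Finset.eq_empty_iff_forall_notMem]
      intro T hT
      obtain ⟨e, he⟩ := (hP T hT).2.1
      have := (hP T hT).1 he
      simp at this
    subst hPe
    simp

end Partition

/-- Items (5a), (5b): with at least `2 ρ` petals one of them survives the peeling. -/
theorem peel_exists {V E ι X : Type} [Fintype V] [DecidableEq V] [Nonempty V] [Fintype E]
    [DecidableEq E] (src tgt : E → V)
    (hconn : ∀ v w, Relation.EqvGen (fun a b => ∃ e, src e = a ∧ tgt e = b) v w)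
    (ρ : ℕ) (hρ : 1 ≤ ρ) (hE : Fintype.card E + 1 ≤ Fintype.card V + ρ)
    {Y : ι → Type} (f : ∀ i, E → Y i) (lab : E → X)
    (hlab : ∀ i e e', f i e = f i e' → lab e = lab e') (I : Finset ι)
    (hact : ∀ U : Finset E, U.Nonempty → (∀ e ∈ U, ∀ e' ∈ U, lab e = lab e') →
      ∃ u ∈ U, ∀ i ∈ I, ∀ j ∈ I, (∃ u' ∈ U, u' ≠ u ∧ f i u' = f i u) →
        (∃ u' ∈ U, u' ≠ u ∧ f j u' = f j u) → i = j)
    (hI : 2 * ρ ≤ I.card) :
    ∃ j ∈ I, Peel src tgt (f j) Finset.univ :=
  peel_aux src tgt f lab hlab I hact _ Finset.univ rfl (2 * ρ - 1) I (Finset.Subset.refl I)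
    (bound_univ src tgt hconn ρ hρ hE) (by omega)

end Pool.Agent.Helper79.HL
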