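import Mathlib

/-!
# Peeling a finite graph (project HL, items (5a), (5b) of note 2702): definitions

`V`, `E` vertices and edges of a finite graph, `src tgt : E → V`; `S : Finset E` the edges which are
left; `f : E → Y` the map to the edges of a petal.
-/

set_option autoImplicit false

namespace Pool.Agent.Helper79.HL

/-- `v` is an end of `e`. -/
def Inc {V E : Type} (src tgt : E → V) (v : V) (e : E) : Prop := src e = v ∨ tgt e = v

/-- `e` is not a loop and is the only edge in `S` at one of its ends `v`. -/
def IsLeaf {V E : Type} (src tgt : E → V) (S : Finset E) (e : E) : Prop :=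
  e ∈ S ∧ src e ≠ tgt e ∧ ∃ v, Inc src tgt v e ∧ ∀ e' ∈ S, Inc src tgt v e' → e' = e

/-- `e` is alone in its fibre of `f`, among the edges in `S`. -/
def IsAlone {E Y : Type} (f : E → Y) (S : Finset E) (e : E) : Prop :=
  e ∈ S ∧ ∀ e' ∈ S, f e' = f e → e' = e

/-- All edges of `S` can be removed one by one, each one being a leaf or alone in its fibre of `f` among
the edges which are left at this moment. -/
inductive Peel {V E Y : Type} [DecidableEq E] (src tgt : E → V) (f : E → Y) : Finset E → Prop
  | empty : Peel src tgt f ∅
  | leaf (S : Finset E) (e : E) (he : IsLeaf src tgt S e) (h : Peel src tgt f (S.erase e)) :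
      Peel src tgt f S
  | alone (S : Finset E) (e : E) (he : IsAlone f S e) (h : Peel src tgt f (S.erase e)) :
      Peel src tgt f S

end Pool.Agent.Helper79.HL
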