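import Pool.Agent.Helper79.HL.Peel
import Pool.Agent.Helper79.HL.Forest

/-!
# Peeling in a forest of petals (project HL, items (5a), (5b) of note 2702)

`L` the vertices of the big graph (cosets of `J₀`), `R i` those of the petals (cosets of `B i`),
`o e : L` the origin of the edge `e` of the finite graph, `lab e` its label.
-/

set_option autoImplicit false

namespace Pool.Agent.Helper79.HL

theorem peel_of_forest {V E ι X L : Type} [Fintype V] [DecidableEq V] [Nonempty V] [Fintype E]
    [DecidableEq E] (src tgt : E → V)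
    (hconn : ∀ v w, Relation.EqvGen (fun a b => ∃ e, src e = a ∧ tgt e = b) v w)
    (ρ : ℕ) (hρ : 1 ≤ ρ) (hE : Fintype.card E + 1 ≤ Fintype.card V + ρ)
    {R : ι → Type} (p : ∀ i, L → R i) (hfor : (forestGraph p).IsAcyclic)
    (o : E → L) (lab : E → X) (hinj : ∀ e e', o e = o e' → lab e = lab e' → e = e')
    (I : Finset ι) (hI : 2 * ρ ≤ I.card) :
    ∃ j ∈ I, Peel src tgt (fun e => (p j (o e), lab e)) Finset.univ := by
  classical
  refine peel_exists src tgt hconn ρ hρ hE (fun i e => (p i (o e), lab e)) lab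
    (fun i e e' h => (Prod.ext_iff.1 h).2) I ?_ hI
  intro U hU hlabU
  obtain ⟨l, hl, hla⟩ := forest_act p hfor (U.image o) (hU.image o) I
  obtain ⟨u, hu, rfl⟩ := Finset.mem_image.1 hl
  refine ⟨u, hu, ?_⟩
  have key : ∀ i, (∃ u' ∈ U, u' ≠ u ∧ (p i (o u'), lab u') = (p i (o u), lab u)) →
      ∃ u' ∈ U.image o, u' ≠ o u ∧ p i u' = p i (o u) := by
    rintro i ⟨u', hu', hne, heq⟩
    refine ⟨o u', Finset.mem_image_of_mem o hu', ?_, (Prod.ext_iff.1 heq).1⟩
    intro ho
    exact hne (hinj u' u ho (hlabU u' hu' u hu))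
  intro i hi j hj h1 h2
  exact hla i hi j hj (key i h1) (key j h2)

end Pool.Agent.Helper79.HL
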